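import Pool.Agent.Q270.CC.AsL
import Pool.Agent.Q24.EL.NECL

/-!
# Joint correlations of the von Mangoldt function and of a random multiplicative function: the exact
entropy threshold

Let `P` be a set of primes, `e p` (`p` prime) random signs with an ARBITRARY joint law (no
independence, no symmetry), and `f = g * cmf P e` the function `g` changed at the primes of `P`:
`cmf P e` is completely multiplicative, `e p` at the primes of `P` and `1` at the other primes. For
the Liouville function `g`, `f` is completely multiplicative with values `1`, `-1`; if `P` is the set of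
all primes, it is an arbitrary random completely multiplicative function with values `1`, `-1`.
`ent μ e S` is the Shannon entropy (in nats) of the signs `e p`, `p ∈ S`, `pr P x` the set of the primes of
`P` up to `x`, `ms P y z` the sum of `1 / p` over the primes `y < p ≤ z` of `P`. `T` and `U` are disjoint sets of
forms `a n + b`, `a ≥ 1`, all of them pairwise not proportional, `U` nonempty (Q1 with `ℓ ≥ 1`; `k = |T|`,
`ℓ = |U|`), `vT T n` is the product of the values of the von Mangoldt function at the forms of `T`, and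
`cl P e T U w N = ∑_{n ≤ N} w(n) ∏_T Λ(a n + b) ∏_U cmf P e (c n + d)` with an arbitrary weight `|w| ≤ 1`, for
instance the product of the values of `g` at the forms of `U`.

1. If `∑_P 1/p = ∞` and the signs have full entropy, `H(P ∩ [1, x]) ≥ (1 - o(1)) |P ∩ [1, x]| log 2`,
   then `E |cl| = o(N)` for all `T`, `U` and all weights: Q1 for `f`, in mean, for all `k` and all `ℓ ≥ 1`.
2. This is uniform in the law (`ε` for an entropy `≥ (1 - η) |P ∩ [1, t]| log 2`, `Y ≤ t ≤ 2 A N`) and in the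
   weights.
3. Almost surely Q1 holds for `f`, for all systems of forms at once, if the mass of `P` in
   `((log N)^2, N]` tends to infinity and one of the following holds: the sum of
   `(log 2 - H(e p | e q, q < p)) / p` over `P` converges (`dd μ e (pr P p) p` is the conditional entropy
   deficit; `p, q ∈ P`); `H(P ∩ [1, x]) ≥ |P ∩ [1, x]| (log 2 - (log log x)^(-1-κ))` for large `x`; or
   `|E(e p | e q, q < p)| ≤ η p` with `η p → 0` (the sign at `p` may be drawn with a bias that depends on all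
   previous signs in any way).
4. The entropy condition in 1 is exact: for every `η > 0` some law has entropy `≥ (1 - η) |S| log 2`
   for all finite sets `S` of primes and `E |cl| ≥ η ∑_{n ≤ N} ∏_T Λ(a n + b)` for all `P`, `T`, `U`, `N`
   (weight `1`).
5. The condition on `P` in 1 is exact (`k ≤ 1`): if `∑_P 1/p < ∞` then for all `U` and `|T| ≤ 1` (coprime
   coefficients in `T`) some weight has `|cl| ≥ c N` for large `N` and EVERY choice of the signs.

Proof: the sum is decomposed according to the largest prime of `P` with an odd exponent in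
`∏_U (c n + d)`; the sign at that prime is split into a martingale difference and its conditional
mean, which is small in mean square because the conditional entropy is close to `log 2` (Pinsker's
inequality for one bit and the chain rule). The coefficients, the `n` with only small primes of `P` with odd
exponents and the `n` with a prime factor near `N` are bounded by upper bound sieves.
-/

set_option autoImplicit false

namespace Pool.Agent.Results.MP_e6fa8b_nt.AllLawsOfFullEntropy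

open Finset Filter Topology MeasureTheory
open Pool.Agent.Q270.EN Pool.Agent.Q270.CC

theorem result :
    -- 1. full entropy implies Q1 (with at least one factor `f`) in mean
    (∀ (Ω : Type) [MeasurableSpace Ω] (μ : Measure Ω) [IsProbabilityMeasure μ] (e : ℕ → Ω → ℝ),
      Sgn e → ∀ P : Set ℕ, Tendsto (fun N : ℕ => ms P 0 N) atTop atTop → FullEntropy μ e P →
      ∀ (A : ℕ) (T U : Finset (ℕ × ℕ)), Adm A A (T ∪ U) → Disjoint T U → U.Nonempty →
      ∀ w : ℕ → ℕ → ℂ, (∀ N n, ‖w N n‖ ≤ 1) →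
        Tendsto (fun N : ℕ => (∫ ω, ‖cl P e T U (w N) N ω‖ ∂μ) / N) atTop (𝓝 0)) ∧
    -- 2. uniformity in the law and the weights
    (∀ P : Set ℕ, Tendsto (fun N : ℕ => ms P 0 N) atTop atTop →
      ∀ (A : ℕ) (T U : Finset (ℕ × ℕ)), Adm A A (T ∪ U) → Disjoint T U → U.Nonempty →
      ∀ ε : ℝ, 0 < ε → ∃ η : ℝ, 0 < η ∧ ∀ Y : ℕ, ∀ᶠ N : ℕ in atTop,
      ∀ (Ω : Type) [MeasurableSpace Ω] (μ : Measure Ω) [IsProbabilityMeasure μ] (e : ℕ → Ω → ℝ),
      Sgn e → (∀ t, Y ≤ t → t ≤ 2 * A * N →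
        (1 - η) * ((pr P t).card * Real.log 2) ≤ ent μ e (pr P t)) →
      ∀ w : ℕ → ℂ, (∀ n, ‖w n‖ ≤ 1) → ∫ ω, ‖cl P e T U w N ω‖ ∂μ ≤ ε * N) ∧
    -- 3. almost surely
    (∀ (Ω : Type) [MeasurableSpace Ω] (μ : Measure Ω) [IsProbabilityMeasure μ] (e : ℕ → Ω → ℝ),
      Sgn e → ∀ P : Set ℕ, Tendsto (fun N : ℕ => ms P ⌈(Real.log N) ^ 2⌉₊ N) atTop atTop →
      ((Summable fun p : {p : ℕ // p.Prime ∧ p ∈ P} => dd μ e (pr P p) p / (p : ℕ)) ∨
        (∃ κ : ℝ, 0 < κ ∧ ∀ᶠ x : ℕ in atTop, (pr P x).card * (Real.log 2 -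
          1 / (Real.log (Real.log x)) ^ (1 + κ)) ≤ ent μ e (pr P x)) ∨
        ∃ η : ℕ → ℝ, Tendsto η atTop (𝓝 0) ∧ ∀ p, p.Prime → p ∈ P → BiasLe μ e P p (η p)) →
      ∀ g : ℕ → ℂ, (∀ n, ‖g n‖ ≤ 1) → ∀ᵐ ω ∂μ, ∀ (A : ℕ) (T U : Finset (ℕ × ℕ)),
        Adm A A (T ∪ U) → Disjoint T U → U.Nonempty →
        Tendsto (fun N : ℕ => (∑ n ∈ Icc 1 N, (vT T n : ℂ) *
          ∏ q ∈ U, chg P g (fun p => e p ω) (q.1 * n + q.2)) / (N : ℂ)) atTop (𝓝 0)) ∧
    -- 4. the entropy condition is exact
    (∀ η : ℝ, 0 < η → η < 1 → ∃ (Ω : Type) (_ : MeasurableSpace Ω)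
      (μ : Measure Ω) (_ : IsProbabilityMeasure μ) (e : ℕ → Ω → ℝ), Sgn e ∧
      (∀ S : Finset ℕ, (1 - η) * (S.card * Real.log 2) ≤ ent μ e S) ∧
      ∀ (P : Set ℕ) (T U : Finset (ℕ × ℕ)) (N : ℕ),
        η * ∑ n ∈ Icc 1 N, vT T n ≤ ∫ ω, ‖cl P e T U (fun _ => 1) N ω‖ ∂μ) ∧
    -- 5. the condition on the set of primes is exact
    (∀ P : Set ℕ, (Summable fun p : {p : ℕ // p.Prime ∧ p ∈ P} => 1 / ((p : ℕ) : ℝ)) →
      ∀ (A : ℕ) (T U : Finset (ℕ × ℕ)), Adm A A (T ∪ U) → Disjoint T U → U.Nonempty →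
      T.card ≤ 1 → (∀ q ∈ T, Nat.Coprime q.1 q.2) →
      ∃ (w : ℕ → ℂ) (c : ℝ), (∀ n, ‖w n‖ ≤ 1) ∧
      0 < c ∧ ∀ᶠ N : ℕ in atTop, ∀ s : ℕ → ℝ, (∀ p, s p = 1 ∨ s p = -1) →
        c * N ≤ ‖∑ n ∈ Icc 1 N, w n * (vT T n : ℂ) *
          ((∏ q ∈ U, cmf P s (q.1 * n + q.2) : ℝ) : ℂ)‖) := by
  refine ⟨?_, ?_, ?_, ?_, ?_⟩
  · intro Ω _ μ _ e he P hP hfull A T U hTU hdis hU w hw
    exact thrL_one μ e he P hP hfull A T U hTU hdis hU w hw
  · intro P hP A T U hTU hdis hU ε hε
    exact thrL_ent P hP A T U hTU hdis hU ε hε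
  · intro Ω _ μ _ e he P hP hcond g hg
    exact asL_all' μ e he P hP hcond g hg
  · exact sharpL
  · exact Pool.Agent.Q24.EL.t_NECL Pool.Agent.Q225.EL.t_BIG

end Pool.Agent.Results.MP_e6fa8b_nt.AllLawsOfFullEntropy
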