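import Mathlib
import Pool.Agent.Q236.CR.Cor3
import Pool.Agent.Q236.CR.Lio

/-!
# Joint correlations of the von Mangoldt and Liouville functions along almost all systems of polynomials

For almost all systems of polynomials of bounded degrees with coefficients of size at most `H`:
(1) shifted by ARBITRARY functions, and for arbitrary weights, every product of at most `k` factors `Λ` and of at least one
factor `λ` has mean value `O((log H)^{-A})` over the first `K` integers, for ALL `K` between `(log H)^B` and `H / (log H)^B`,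
with one exceptional set; the number of the polynomials may grow like any multiple of `log log H`;
(2) the product of `k` factors `Λ` along the system and of the FIXED factor `λ(a n + b)` has mean value `O((log H)^{-A})`, for all
small `a`, `b` and all `K` between `exp((log H)^ε)` and `H / (log H)^B`.
-/

set_option autoImplicit false

namespace Pool.Agent.Results.MP_e6fa8b_nt.CompleteRange

open Finset

/-- the value at `n` of the function `g` plus the polynomial of degree at most `d` with coefficients `c 0, ..., c d` -/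
def val (d : ℕ) (g : ℕ → ℤ) (c : Fin (d + 1) → ℤ) (n : ℕ) : ℤ := g n + ∑ l, c l * (n : ℤ) ^ (l : ℕ)

/-- the systems of coefficients of `r` polynomials of degrees at most `d i`, all coefficients in `[-H, H]` -/
noncomputable def Box (r : ℕ) (d : Fin r → ℕ) (H : ℕ) : Finset ((i : Fin r) → Fin (d i + 1) → ℤ) :=
  Fintype.piFinset (fun i => Fintype.piFinset (fun _ : Fin (d i + 1) => Icc (-(H : ℤ)) H))

open Classical in
/-- the second part for one system of degrees -/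
lemma part2 (k A : ℕ) (ε : ℝ) (hε : 0 < ε) (d : Fin k → ℕ) (hd : ∀ i, 1 ≤ d i) :
    ∃ B H0 : ℕ, ∀ H : ℕ, H0 ≤ H → ∀ g : Fin k → Polynomial ℤ,
      (∀ i, ∀ n : ℕ, 1 ≤ n → n ≤ H → |(g i).eval (n : ℤ)| ≤ H * (n : ℤ) ^ d i) →
    ∃ Bad ⊆ Box k d H, (Bad.card : ℝ) ≤ (Box k d H).card / Real.log H ^ A ∧
    ∀ c ∈ Box k d H, c ∉ Bad → ∀ a b : ℕ, 1 ≤ a → (a : ℝ) ≤ Real.log H ^ A → (b : ℝ) ≤ Real.log H ^ A →
    ∀ K : ℕ, Real.exp (Real.log H ^ ε) ≤ K → (K : ℝ) * Real.log H ^ B ≤ H →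
      |∑ n ∈ Icc 1 K, ((ArithmeticFunction.liouville (a * n + b) : ℤ) : ℝ) *
        ∏ i, ArithmeticFunction.vonMangoldt (val (d i) (fun n => (g i).eval (n : ℤ)) (c i) n).natAbs| ≤
        K / Real.log H ^ A := by
  obtain ⟨s, rfl⟩ : ∃ s : Fin k → ℕ, d = fun i => s i + 1 :=
    ⟨fun i => d i - 1, funext fun i => (Nat.sub_add_cancel (hd i)).symm⟩
  obtain ⟨B, H0, h⟩ := Pool.Agent.Q236.CR.lio k s A ε hε
  refine ⟨B, H0, fun H hH g hg => ?_⟩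
  have h1 := h H hH g hg
  obtain ⟨P, hP⟩ : ∃ P : ((i : Fin k) → Fin (s i + 2) → ℤ) → Prop, P = fun c =>
      ∃ a b : ℕ, 1 ≤ a ∧ (a : ℝ) ≤ Real.log H ^ A ∧ (b : ℝ) ≤ Real.log H ^ A ∧
      ∃ K : ℕ, Real.exp (Real.log H ^ ε) ≤ K ∧ (K : ℝ) * Real.log H ^ B ≤ H ∧
      (K : ℝ) / Real.log H ^ A < |∑ n ∈ Icc 1 K, Pool.Agent.Q236.CR.lioR (a * n + b) *
        ∏ i, ArithmeticFunction.vonMangoldt (Pool.Agent.Q236.CR.pw (s i) (g i) (c i) n).natAbs| := ⟨_, rfl⟩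
  refine ⟨(Box k (fun i => s i + 1) H).filter P, filter_subset _ _, ?_, ?_⟩
  · have h2 : ((((Pool.Agent.Q236.CR.SB k s H).filter P).card : ℕ) : ℝ) ≤ (Pool.Agent.Q236.CR.SB k s H).card / Real.log H ^ A := by
      rw [hP]
      refine le_trans (le_of_eq ?_) h1
      congr!
    exact h2
  · intro c hc hcb a b ha1 ha2 hb K hK1 hK2
    by_contra hcon
    push Not at hcon
    apply hcb
    rw [mem_filter, hP]
    exact ⟨hc, a, b, ha1, ha2, hb, K, hK1, hK2, hcon⟩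

theorem result (k D A : ℕ) (ε : ℝ) (hε : 0 < ε) :
    ∃ B H0 : ℕ, ∀ H : ℕ, H0 ≤ H →
    (∀ (r : ℕ) (d : Fin r → ℕ), (2 : ℝ) ^ r ≤ Real.log H ^ A → (∀ i, 1 ≤ d i ∧ d i ≤ D) →
    ∀ g : Fin r → ℕ → ℤ, (∀ i, ∀ n : ℕ, 1 ≤ n → n ≤ H → |g i n| ≤ H * (n : ℤ) ^ d i) →
    ∀ W : Finset (ℕ → ℂ), (W.card : ℝ) ≤ Real.log H ^ A →
      (∀ w ∈ W, ∀ n : ℕ, 1 ≤ n → n ≤ H → ‖w n‖ ≤ Real.log H ^ A) →
    ∃ Bad ⊆ Box r d H, (Bad.card : ℝ) ≤ (Box r d H).card / Real.log H ^ A ∧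
    ∀ c ∈ Box r d H, c ∉ Bad → ∀ I J : Finset (Fin r), I.card ≤ k → Disjoint I J → J.Nonempty → ∀ w ∈ W,
    ∀ K : ℕ, Real.log H ^ B ≤ K → (K : ℝ) * Real.log H ^ B ≤ H →
      ‖∑ n ∈ Icc 1 K, w n *
        ((∏ i ∈ I, ((ArithmeticFunction.vonMangoldt (val (d i) (g i) (c i) n).natAbs : ℝ) : ℂ)) *
          ∏ j ∈ J, ((ArithmeticFunction.liouville (val (d j) (g j) (c j) n).natAbs : ℤ) : ℂ))‖ ≤
        K / Real.log H ^ A) ∧
    (∀ d : Fin k → ℕ, (∀ i, 1 ≤ d i ∧ d i ≤ D) →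
    ∀ g : Fin k → Polynomial ℤ, (∀ i, ∀ n : ℕ, 1 ≤ n → n ≤ H → |(g i).eval (n : ℤ)| ≤ H * (n : ℤ) ^ d i) →
    ∃ Bad ⊆ Box k d H, (Bad.card : ℝ) ≤ (Box k d H).card / Real.log H ^ A ∧
    ∀ c ∈ Box k d H, c ∉ Bad → ∀ a b : ℕ, 1 ≤ a → (a : ℝ) ≤ Real.log H ^ A → (b : ℝ) ≤ Real.log H ^ A →
    ∀ K : ℕ, Real.exp (Real.log H ^ ε) ≤ K → (K : ℝ) * Real.log H ^ B ≤ H →
      |∑ n ∈ Icc 1 K, ((ArithmeticFunction.liouville (a * n + b) : ℤ) : ℝ) *
        ∏ i, ArithmeticFunction.vonMangoldt (val (d i) (fun n => (g i).eval (n : ℤ)) (c i) n).natAbs| ≤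
        K / Real.log H ^ A) := by
  classical
  obtain ⟨B1, H1, h1⟩ := Pool.Agent.Q236.CR.Hyb.hyb k D A
  obtain ⟨S, hS⟩ : ∃ S : Finset (Fin k → ℕ), S = Fintype.piFinset (fun _ : Fin k => Icc 1 D) := ⟨_, rfl⟩
  have hd : ∀ d : Fin k → ℕ, d ∈ S → ∀ i, 1 ≤ d i := by
    intro d hd i
    rw [hS, Fintype.mem_piFinset] at hd
    exact (mem_Icc.1 (hd i)).1
  have h2 : ∀ d : Fin k → ℕ, ∃ B H0 : ℕ, d ∈ S → ∀ H : ℕ, H0 ≤ H → ∀ g : Fin k → Polynomial ℤ,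
      (∀ i, ∀ n : ℕ, 1 ≤ n → n ≤ H → |(g i).eval (n : ℤ)| ≤ H * (n : ℤ) ^ d i) →
    ∃ Bad ⊆ Box k d H, (Bad.card : ℝ) ≤ (Box k d H).card / Real.log H ^ A ∧
    ∀ c ∈ Box k d H, c ∉ Bad → ∀ a b : ℕ, 1 ≤ a → (a : ℝ) ≤ Real.log H ^ A → (b : ℝ) ≤ Real.log H ^ A →
    ∀ K : ℕ, Real.exp (Real.log H ^ ε) ≤ K → (K : ℝ) * Real.log H ^ B ≤ H →
      |∑ n ∈ Icc 1 K, ((ArithmeticFunction.liouville (a * n + b) : ℤ) : ℝ) *
        ∏ i, ArithmeticFunction.vonMangoldt (val (d i) (fun n => (g i).eval (n : ℤ)) (c i) n).natAbs| ≤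
        K / Real.log H ^ A := by
    intro d
    by_cases hdS : d ∈ S
    · obtain ⟨B, H0, h⟩ := part2 k A ε hε d (hd d hdS)
      exact ⟨B, H0, fun _ => h⟩
    · exact ⟨0, 0, fun h => absurd h hdS⟩
  choose B2 H2 h2 using h2
  obtain ⟨B, hB⟩ : ∃ B : ℕ, B = B1 + S.sup B2 := ⟨_, rfl⟩
  refine ⟨B, max (max H1 3) (S.sup H2), fun H hH => ?_⟩
  have hL1 : 1 ≤ Real.log H := by
    rw [Real.le_log_iff_exp_le (by exact_mod_cast (show 0 < H by omega))]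
    have h3 := Real.exp_one_lt_d9
    have h4 : (3 : ℝ) ≤ H := by exact_mod_cast (show 3 ≤ H by omega)
    linarith
  constructor
  · intro r d hr hd' g hg W hW hw
    obtain ⟨Bad, hBad1, hBad2, hBad3⟩ := h1 H (by omega) r d hr hd' g hg W hW hw
    refine ⟨Bad, hBad1, hBad2, fun c hc hcb I J hI hIJ hJ w hwW K hK1 hK2 => ?_⟩
    have h5 : Real.log H ^ B1 ≤ Real.log H ^ B := pow_le_pow_right₀ hL1 (by omega)
    refine hBad3 c hc hcb I J hI hIJ hJ w hwW K (h5.trans hK1) ?_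
    calc (K : ℝ) * Real.log H ^ B1 ≤ K * Real.log H ^ B := by gcongr
      _ ≤ H := hK2
  · intro d hd' g hg
    have hdS : d ∈ S := by
      rw [hS, Fintype.mem_piFinset]
      exact fun i => mem_Icc.2 (hd' i)
    have h6 : H2 d ≤ S.sup H2 := le_sup hdS
    have h7 : B2 d ≤ S.sup B2 := le_sup hdS
    obtain ⟨Bad, hBad1, hBad2, hBad3⟩ := h2 d hdS H (by omega) g hg
    refine ⟨Bad, hBad1, hBad2, fun c hc hcb a b ha1 ha2 hb K hK1 hK2 => ?_⟩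
    have h5 : Real.log H ^ B2 d ≤ Real.log H ^ B := pow_le_pow_right₀ hL1 (by omega)
    refine hBad3 c hc hcb a b ha1 ha2 hb K hK1 ?_
    calc (K : ℝ) * Real.log H ^ B2 d ≤ K * Real.log H ^ B := by gcongr
      _ ≤ H := hK2

end Pool.Agent.Results.MP_e6fa8b_nt.CompleteRange
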