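import Pool.Agent.Q145.HC.Fin

set_option autoImplicit false
set_option maxHeartbeats 4000000

/-!
# The Hardy-Littlewood-Chowla conjecture in growing dimension, for almost all shifts

Let `P_s` be the set of the `X < n ≤ 2X` for which `n + s_1, ..., n + s_K` are all prime.  For
almost all admissible `s ∈ [1, X]^K` the number of elements of `P_s` is `(1 + o(1)) 𝔖(s) X / log^K X`,
and the signs `λ(n + t_1), ..., λ(n + t_L)` of the Liouville function along `P_s` are independent and
uniform, and independent of any given weight `w(n)`, in mean square over `t ∈ [1, X]^L`.  Here `K`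
and `L` grow with `X`:

* for every `X`, all `K + L ≤ A log log X`;
* for arbitrarily large `X`, all `K + L ≤ c log X / log log X` (for `K` the natural range up to the
  constant);
* for every `X` in this range, unless there is an exceptional zero: a real zero
  `β > 1 - C log log X / log X` of a primitive quadratic character of conductor at most
  `exp (log X / log log X)`.
-/

namespace Pool.Agent.Results.MP_e6fa8b_nt.GrowingDimension

open Finset Filter

open scoped Classical

/-- The number of residue classes modulo `p` occupied by the tuple `s`. -/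
def classes {K : ℕ} (s : Fin K → ℕ) (p : ℕ) : ℕ := (univ.image fun i => s i % p).card

/-- The tuple does not occupy all the residue classes modulo any prime. -/
def Admissible {K : ℕ} (s : Fin K → ℕ) : Prop := ∀ p : ℕ, p.Prime → classes s p < p

/-- The partial products (primes up to `w`) of the singular series of the tuple. -/
noncomputable def partialSeries {K : ℕ} (s : Fin K → ℕ) (w : ℕ) : ℝ :=
  ∏ p ∈ (Icc 1 w).filter Nat.Prime, (1 - (classes s p : ℝ) / p) / (1 - 1 / (p : ℝ)) ^ K

/-- The singular series of the tuple: the limit of the partial products. -/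
noncomputable def series {K : ℕ} (s : Fin K → ℕ) : ℝ := limUnder atTop (partialSeries s)

/-- The `X < n ≤ 2 X` for which all the `n + s_i` are prime. -/
def points {K : ℕ} (X : ℕ) (s : Fin K → ℕ) : Finset ℕ := (Ioc X (2 * X)).filter fun n => ∀ i, (n + s i).Prime

/-- The Liouville function. -/
noncomputable def liouville (n : ℕ) : ℝ := (-1) ^ (ArithmeticFunction.cardFactors n)

/-- The admissible `K`-tuples in `[1, X]^K`. -/
noncomputable def tuples (X K : ℕ) : Finset (Fin K → ℕ) :=
  (Fintype.piFinset fun _ => Icc 1 X).filter Admissible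

/-- The deviation for the weight `w`, the signs `e` and the shifts `t`:
`|2^L ∑ w(n) [λ(n + t_j) = e_j for all j] - ∑ w(n)|`, the sums over the points of the tuple. -/
noncomputable def deviation {K L : ℕ} (X : ℕ) (s : Fin K → ℕ) (e : Fin L → ℝ) (w : ℕ → ℂ) (t : Fin L → ℕ) : ℝ :=
  ‖(2 : ℂ) ^ L * (∑ n ∈ (points X s).filter fun n => ∀ j, liouville (n + t j) = e j, w n) - ∑ n ∈ points X s, w n‖

/-- The tuple `s` obeys the law with precision `ε` for `L` signs. -/
def Obeys {K : ℕ} (X L : ℕ) (ε : ℝ) (s : Fin K → ℕ) : Prop :=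
  |(points X s).card * Real.log X ^ K - series s * X| ≤ ε * (series s * X) ∧
  ∀ (e : Fin L → ℝ) (w : ℕ → ℂ), (∀ j, e j = 1 ∨ e j = -1) → (∀ n, ‖w n‖ ≤ 1) →
    ∑ t ∈ Fintype.piFinset (fun _ : Fin L => Icc 1 X), (deviation X s e w t * Real.log X ^ K) ^ 2 ≤
      (X : ℝ) ^ L * (ε * (series s * X)) ^ 2

/-- The law holds for all but a proportion at most `ε` of the admissible `K`-tuples in `[1, X]^K`. -/
def Law (X K L : ℕ) (ε : ℝ) : Prop :=
  (((tuples X K).filter fun s => ¬ Obeys X L ε s).card : ℝ) ≤ ε * (tuples X K).card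

/-- There is no exceptional zero at the scale `X`: the real zeros `β` of the primitive quadratic
characters of conductor `1 < r ≤ exp (log X / log log X)` are at most `1 - C log log X / log X`. -/
def NoExceptionalZero (C : ℝ) (X : ℕ) : Prop :=
  ∀ (r : ℕ) [NeZero r], 1 < r → (r : ℝ) ≤ Real.exp (Real.log X / Real.log (Real.log X)) →
    ∀ χ : DirichletCharacter ℂ r, χ.IsPrimitive → χ ^ 2 = 1 → ∀ β : ℝ, χ.LFunction β = 0 →
      β ≤ 1 - C * (Real.log (Real.log X) / Real.log X)

open Pool.Agent.Q145.SZ Pool.Agent.Q145.HC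

theorem law_eq (X K L : ℕ) (ε : ℝ) : Law X K L ε = HCK X K L ε := by
  unfold Law HCK
  have h : tuples X K = AT X K := by
    unfold tuples AT
    congr 1
  rw [h]
  rfl

/-- **Theorem.** (0) The singular series converges and is positive for admissible tuples of distinct
positive integers. The Hardy-Littlewood-Chowla law for almost all shifts: (1) for every large `X`,
uniformly for `K + L ≤ A log log X`; (2) for arbitrarily large `X`, uniformly for
`K + L ≤ c log X / log log X`; (3) for every large `X`, uniformly for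
`K + L ≤ c log X / log log X`, unless there is an exceptional zero at the scale `X`. -/
theorem result :
    (∀ (K : ℕ) (s : Fin K → ℕ), Function.Injective s → (∀ i, 1 ≤ s i) → Admissible s →
      Tendsto (partialSeries s) atTop (nhds (series s)) ∧ 0 < series s) ∧
    (∀ A ε : ℝ, 0 < ε → ∀ᶠ X : ℕ in atTop, ∀ K L : ℕ, ((K + L : ℕ) : ℝ) ≤ A * Real.log (Real.log X) → Law X K L ε) ∧
    (∃ c : ℝ, 0 < c ∧ ∀ ε : ℝ, 0 < ε → ∃ᶠ X : ℕ in atTop,
      ∀ K L : ℕ, ((K + L : ℕ) : ℝ) ≤ c * (Real.log X / Real.log (Real.log X)) → Law X K L ε) ∧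
    (∃ c C : ℝ, 0 < c ∧ 0 < C ∧ ∀ ε : ℝ, 0 < ε → ∀ᶠ X : ℕ in atTop, NoExceptionalZero C X →
      ∀ K L : ℕ, ((K + L : ℕ) : ℝ) ≤ c * (Real.log X / Real.log (Real.log X)) → Law X K L ε) := by
  simp only [law_eq]
  refine ⟨fun K s h1 h2 h3 => series_conv K s h1 h2 h3, ?_, ?_, ?_⟩
  · intro A ε hε
    filter_upwards [case1H zr' Pool.Agent.Q111.SZ.t_PWB Pool.Agent.Q177.SZ.t_SIEG sufh' A ε hε] with X h K L hKL
    exact h (K + L) hKL K L le_rfl
  · obtain ⟨c, hc, h⟩ := case2H Pool.Agent.Q111.SZ.t_PWB sufh' good'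
    exact ⟨c, hc, fun ε hε => (h ε hε).mono fun X h2 K L hKL => h2 (K + L) hKL K L le_rfl⟩
  · obtain ⟨c, C, hc, hC, h⟩ := dichH zr' Pool.Agent.Q111.SZ.t_PWB sufh'
    refine ⟨c, C, hc, hC, fun ε hε => ?_⟩
    filter_upwards [h ε hε] with X h2 h3 K L hKL
    exact h2 h3 (K + L) hKL K L le_rfl

end Pool.Agent.Results.MP_e6fa8b_nt.GrowingDimension
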