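import Pool.Agent.Q163.BC.Lin

set_option autoImplicit false

/-!
# Signs at shifted primes after random changes of the Liouville function at any infinite set of primes

Let `P` be a set of primes and let `χ` be the random completely multiplicative function with
independent fair signs at the primes of `P` and the value `1` at the other primes.

* If `P` is infinite, however thin, and `a_j n + b_j` are linear forms with `a_j, b_j ≠ 0`, no two of
  them proportional, then for all functions `g_j : ℕ → {-1, 1}`, almost surely all the sign patterns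
  of the `g_j(p) χ(|a_j p + b_j|)` occur for a positive upper proportion of the primes `p` in every
  reduced residue class. If `P` is finite, this fails for `g_j = 1` and EVERY choice of the signs.
* The same for the values of polynomials at primes, if every polynomial has a root modulo
  infinitely many primes of `P`.
* Almost surely this holds for the Liouville function changed at the primes of `P` into random signs
  and all systems of linear forms at once.
-/

namespace Pool.Agent.Results.MP_e6fa8b_nt.PatternsAtPrimes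

open Finset Filter Topology Polynomial MeasureTheory ProbabilityTheory Pool.Agent.Q163.RP
  Pool.Agent.Q163.RX Pool.Agent.Q163.BC

open Classical in
/-- the completely multiplicative function with the value `1` or `-1` at the primes `p ∈ P`,
according to `ω p`, and the value `c` at the other primes -/
noncomputable def change (P : Set ℕ) (c : ℝ) (ω : ℕ → Bool) (n : ℕ) : ℝ :=
  ∏ p ∈ n.primeFactors, (if p ∈ P then (if ω p = true then 1 else -1) else c) ^ n.factorization p

open Classical in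
/-- a positive upper proportion of the primes has the property `S`: at least `c N / log N` primes
below `N` for arbitrarily large `N` -/
def ManyPrimes (S : ℕ → Prop) : Prop :=
  ∃ c : ℝ, 0 < c ∧ ∃ᶠ N : ℕ in atTop, c * (N / Real.log N) ≤
    ((range N).filter fun p => p.Prime ∧ S p).card

lemma change_one (P : Set ℕ) (ω : ℕ → Bool) (n : ℕ) : change P 1 ω n = mult (sg P es ω) n := rfl

/-- the fixed part of the changed Liouville function -/
noncomputable def off (P : Set ℕ) (n : ℕ) : ℝ :=
  mult (fun p => by classical exact if p ∈ P then 1 else -1) n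

lemma off_sign (P : Set ℕ) (n : ℕ) : off P n = 1 ∨ off P n = -1 :=
  (abs_eq zero_le_one).1 (abs_mult _ (fun p => by split_ifs <;> simp) n)

lemma change_neg (P : Set ℕ) (ω : ℕ → Bool) (n : ℕ) : change P (-1) ω n = off P n * change P 1 ω n := by
  classical
  unfold off change mult
  rw [← Finset.prod_mul_distrib]
  refine Finset.prod_congr rfl fun p _ => ?_
  rw [← mul_pow]
  by_cases hp : p ∈ P
  · simp only [if_pos hp, one_mul]
  · simp only [if_neg hp, mul_one]

lemma many_of_pos {S S' : ℕ → Prop} (h : ∀ p, S p → p.Prime ∧ S' p)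
    (hS : PosW (fun N => N / Real.log N) S) : ManyPrimes S' := by
  classical
  obtain ⟨c, hc, h1⟩ := hS
  refine ⟨c, hc, h1.mono fun N hN => hN.trans ?_⟩
  have h2 : ((range N).filter S).card ≤ ((range N).filter fun p => p.Prime ∧ S' p).card :=
    card_le_card fun m hm => by
      rw [mem_filter] at hm ⊢
      exact ⟨hm.1, h m hm.2⟩
  have h3 : (((range N).filter S).card : ℝ) ≤
      (((range N).filter fun p => p.Prime ∧ S' p).card : ℝ) := by exact_mod_cast h2
  refine (le_of_eq ?_).trans (h3.trans (le_of_eq ?_))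
  · congr
  · congr

lemma many_mono {S S' : ℕ → Prop} (h : ∀ p, S p → S' p) (hS : ManyPrimes S) : ManyPrimes S' := by
  classical
  obtain ⟨c, hc, h1⟩ := hS
  refine ⟨c, hc, h1.mono fun N hN => hN.trans ?_⟩
  have h2 : ((range N).filter fun p => p.Prime ∧ S p).card ≤
      ((range N).filter fun p => p.Prime ∧ S' p).card :=
    card_le_card fun m hm => by
      rw [mem_filter] at hm ⊢
      exact ⟨hm.1, hm.2.1, h m hm.2.2⟩
  have h3 : (((range N).filter fun p => p.Prime ∧ S p).card : ℝ) ≤
      (((range N).filter fun p => p.Prime ∧ S' p).card : ℝ) := by exact_mod_cast h2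
  refine (le_of_eq ?_).trans (h3.trans (le_of_eq ?_))
  · congr
  · congr

lemma exists_of_many {S : ℕ → Prop} (h : ManyPrimes S) : ∃ p, p.Prime ∧ S p := by
  classical
  obtain ⟨c, hc, h1⟩ := h
  obtain ⟨N, hN, h2⟩ := (frequently_atTop.1 h1) 3
  by_contra hno
  push Not at hno
  have h3 : ((range N).filter fun p => p.Prime ∧ S p).card = 0 := by
    rw [card_eq_zero]
    exact Finset.filter_eq_empty_iff.2 fun m _ hm => hno m hm.1 hm.2
  have h4 : (3 : ℝ) ≤ N := by exact_mod_cast hN
  have h5 : 0 < Real.log N := Real.log_pos (by linarith)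
  have h6 : c * (N / Real.log N) ≤ (((range N).filter fun p => p.Prime ∧ S p).card : ℝ) := by
    refine h2.trans (le_of_eq ?_)
    congr
  rw [h3, Nat.cast_zero] at h6
  have h7 : 0 < c * (N / Real.log N) := by positivity
  linarith

/-- polynomials at primes -/
theorem polynomials (P : Set ℕ) {n : ℕ} (hn : 1 ≤ n) (F : Fin n → ℤ[X])
    (hsep : ∀ i, ((F i).map (Int.castRingHom ℚ)).Separable)
    (hcop : ∀ i j, i ≠ j → IsCoprime ((F i).map (Int.castRingHom ℚ)) ((F j).map (Int.castRingHom ℚ)))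
    (h0 : ∀ j, (F j).eval 0 ≠ 0) (hP : ∀ j, (rootPrimes P (F j)).Infinite) (g : Fin n → ℕ → ℝ)
    (hg : ∀ j m, g j m = 1 ∨ g j m = -1) :
    ∀ᵐ ω ∂cm, ∀ w : Fin n → Bool, ∀ Q r : ℕ, 0 < Q → Nat.Coprime r Q →
      ManyPrimes fun p => p ≡ r [MOD Q] ∧
        ∀ j, g j p * change P 1 ω (absVal (F j) p) = if w j = true then 1 else -1 := by
  rw [ae_all_iff]
  intro w
  rw [ae_all_iff]
  intro Q
  rw [ae_all_iff]
  intro r
  by_cases hQ : 0 < Q
  swap
  · exact Eventually.of_forall fun ω h => absurd h hQ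
  by_cases hr : Nat.Coprime r Q
  swap
  · exact Eventually.of_forall fun ω _ h => absurd h hr
  have h1 := poly_prime P hn F (fun _ => 1) hsep hcop (fun _ => one_ne_zero)
    (fun i j => by rw [Polynomial.map_one]; exact isCoprime_one_right) h0 hP g hg Q r hQ hr w
  filter_upwards [h1] with ω hω _ _
  refine many_of_pos (fun p hp => ⟨hp.1.1, hp.1.2, fun j => ?_⟩) hω
  have h2 := hp.2 j
  rw [LF_one] at h2
  exact h2

/-- a system of linear forms: nonzero coefficients, no two forms proportional -/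
def System {n : ℕ} (a b : Fin n → ℤ) : Prop :=
  (∀ j, a j ≠ 0 ∧ b j ≠ 0) ∧ ∀ i j, i ≠ j → a i * b j ≠ a j * b i

/-- linear forms at primes -/
theorem forms (P : Set ℕ) (hP : {p | p ∈ P ∧ p.Prime}.Infinite) {n : ℕ} (hn : 1 ≤ n)
    (a b : Fin n → ℤ) (hab : System a b) (g : Fin n → ℕ → ℝ) (hg : ∀ j m, g j m = 1 ∨ g j m = -1) :
    ∀ᵐ ω ∂cm, ∀ w : Fin n → Bool, ∀ Q r : ℕ, 0 < Q → Nat.Coprime r Q →
      ManyPrimes fun p => p ≡ r [MOD Q] ∧
        ∀ j, g j p * change P 1 ω (a j * p + b j).natAbs = if w j = true then 1 else -1 := by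
  have h1 := polynomials P hn (fun j => lin (a j) (b j)) (fun i => lin_sep (hab.1 i).1 _)
    (fun i j hij => lin_cop (hab.2 i j hij))
    (fun j => by rw [lin_eval, mul_zero, zero_add]; exact (hab.1 j).2)
    (fun j => lin_root P hP (hab.1 j).1 _) g hg
  filter_upwards [h1] with ω hω w Q r hQ hr
  refine many_mono (fun p hp => ⟨hp.1, fun j => ?_⟩) (hω w Q r hQ hr)
  have h2 := hp.2 j
  unfold absVal at h2
  rw [lin_eval] at h2
  exact h2

/-- finitely many primes: a pattern which never occurs, whatever the signs -/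
theorem finite_set (P : Set ℕ) (hP : {p | p ∈ P ∧ p.Prime}.Finite) :
    ∃ n, 1 ≤ n ∧ ∀ ω : ℕ → Bool, ∀ m : ℕ,
      ¬ ∀ j : Fin n, change P 1 ω (m + j + 1) = -1 := by
  classical
  set S := hP.toFinset with hS
  have hSp : ∀ p ∈ S, p.Prime := fun p hp => (hP.mem_toFinset.1 hp).2
  have h0 : 0 < ∏ p ∈ S, p := Finset.prod_pos fun p hp => (hSp p hp).pos
  refine ⟨∏ p ∈ S, p, h0, fun ω m hocc => ?_⟩
  have hm : m % ∏ p ∈ S, p < ∏ p ∈ S, p := Nat.mod_lt _ h0
  set M := ∏ p ∈ S, p with hM
  have hj : (M - m % M) % M < M := Nat.mod_lt _ h0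
  have h1 := hocc ⟨(M - m % M) % M, hj⟩
  simp only at h1
  have h2 : M ∣ m + (M - m % M) % M := by
    rw [Nat.dvd_iff_mod_eq_zero, Nat.add_mod, Nat.mod_mod, ← Nat.add_mod]
    have h3 : m + (M - m % M) = M * (m / M + 1) := by
      have h4 := Nat.div_add_mod m M
      rw [Nat.mul_add, Nat.mul_one]
      omega
    rw [h3, Nat.mul_mod_right]
  have h3 : change P 1 ω (m + (M - m % M) % M + 1) = 1 := by
    unfold change
    refine Finset.prod_eq_one fun p hp => ?_
    have hpp := Nat.prime_of_mem_primeFactors hp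
    have hpd := Nat.dvd_of_mem_primeFactors hp
    have hpP : p ∉ P := by
      intro h4
      have h5 : p ∈ S := hP.mem_toFinset.2 ⟨h4, hpp⟩
      have h6 : p ∣ M := Finset.dvd_prod_of_mem (fun p => p) h5
      have h7 := (Nat.dvd_add_right (h6.trans h2)).1 hpd
      exact hpp.one_lt.ne' (Nat.dvd_one.1 h7)
    rw [if_neg hpP, one_pow]
  rw [h3] at h1
  norm_num at h1

/-- the changed Liouville function at all systems of linear forms -/
theorem liouville (P : Set ℕ) (hP : {p | p ∈ P ∧ p.Prime}.Infinite) :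
    ∀ᵐ ω ∂cm, ∀ n, 1 ≤ n → ∀ a b : Fin n → ℤ, System a b → ∀ w : Fin n → Bool, ∀ Q r : ℕ, 0 < Q →
      Nat.Coprime r Q → ManyPrimes fun p => p ≡ r [MOD Q] ∧
        ∀ j, change P (-1) ω (a j * p + b j).natAbs = if w j = true then 1 else -1 := by
  rw [ae_all_iff]
  intro n
  by_cases hn : 1 ≤ n
  swap
  · exact Eventually.of_forall fun ω h => absurd h hn
  have h1 : ∀ᵐ ω ∂cm, ∀ a b : Fin n → ℤ, System a b → ∀ w : Fin n → Bool, ∀ Q r : ℕ, 0 < Q →
      Nat.Coprime r Q → ManyPrimes fun p => p ≡ r [MOD Q] ∧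
        ∀ j, change P (-1) ω (a j * p + b j).natAbs = if w j = true then 1 else -1 := by
    rw [ae_all_iff]
    intro a
    rw [ae_all_iff]
    intro b
    by_cases hab : System a b
    swap
    · exact Eventually.of_forall fun ω h => absurd h hab
    have h2 := forms P hP hn a b hab (fun j p => off P (a j * p + b j).natAbs)
      (fun j p => off_sign P _)
    filter_upwards [h2] with ω hω _ w Q r hQ hr
    refine many_mono (fun p hp => ⟨hp.1, fun j => ?_⟩) (hω w Q r hQ hr)
    rw [change_neg]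
    exact hp.2 j
  filter_upwards [h1] with ω hω _
  exact hω

/-- **Signs at shifted primes after random changes at any infinite set of primes.** -/
theorem result :
    -- (1) polynomials at primes
    (∀ (P : Set ℕ) (n : ℕ), 1 ≤ n → ∀ F : Fin n → ℤ[X],
      (∀ i, ((F i).map (Int.castRingHom ℚ)).Separable) →
      (∀ i j, i ≠ j → IsCoprime ((F i).map (Int.castRingHom ℚ)) ((F j).map (Int.castRingHom ℚ))) →
      (∀ j, (F j).eval 0 ≠ 0) → (∀ j, (rootPrimes P (F j)).Infinite) →
      ∀ g : Fin n → ℕ → ℝ, (∀ j m, g j m = 1 ∨ g j m = -1) →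
      ∀ᵐ ω ∂cm, ∀ w : Fin n → Bool, ∀ Q r : ℕ, 0 < Q → Nat.Coprime r Q →
        ManyPrimes fun p => p ≡ r [MOD Q] ∧
          ∀ j, g j p * change P 1 ω (absVal (F j) p) = if w j = true then 1 else -1) ∧
    -- (2) linear forms at primes
    (∀ P : Set ℕ, {p | p ∈ P ∧ p.Prime}.Infinite → ∀ n : ℕ, 1 ≤ n → ∀ a b : Fin n → ℤ,
      System a b → ∀ g : Fin n → ℕ → ℝ, (∀ j m, g j m = 1 ∨ g j m = -1) →
      ∀ᵐ ω ∂cm, ∀ w : Fin n → Bool, ∀ Q r : ℕ, 0 < Q → Nat.Coprime r Q →
        ManyPrimes fun p => p ≡ r [MOD Q] ∧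
          ∀ j, g j p * change P 1 ω (a j * p + b j).natAbs = if w j = true then 1 else -1) ∧
    -- (3) the exact condition
    (∀ P : Set ℕ, {p | p ∈ P ∧ p.Prime}.Infinite ↔ ∀ n : ℕ, 1 ≤ n → ∀ g : ℕ → ℝ,
      (∀ m, g m = 1 ∨ g m = -1) → ∀ᵐ ω ∂cm, ∀ w : Fin n → Bool, ∃ p : ℕ, p.Prime ∧
        ∀ j : Fin n, g (p + j + 1) * change P 1 ω (p + j + 1) = if w j = true then 1 else -1) ∧
    (∀ P : Set ℕ, ¬ {p | p ∈ P ∧ p.Prime}.Infinite → ∃ n, 1 ≤ n ∧ ∀ ω : ℕ → Bool, ∀ m : ℕ,
      ¬ ∀ j : Fin n, change P 1 ω (m + j + 1) = -1) ∧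
    -- (4) the changed Liouville function
    (∀ P : Set ℕ, {p | p ∈ P ∧ p.Prime}.Infinite →
      (∀ᵐ ω ∂cm, ∀ n, 1 ≤ n → ∀ a b : Fin n → ℤ, System a b → ∀ w : Fin n → Bool, ∀ Q r : ℕ,
        0 < Q → Nat.Coprime r Q → ManyPrimes fun p => p ≡ r [MOD Q] ∧
          ∀ j, change P (-1) ω (a j * p + b j).natAbs = if w j = true then 1 else -1) ∧
      ∃ h : ℕ → ℝ, (∀ n, h n = 1 ∨ h n = -1) ∧ (∀ m n, 1 ≤ m → 1 ≤ n → h (m * n) = h m * h n) ∧
        (∀ q : ℕ, q.Prime → q ∉ P → h q = -1) ∧
        ∀ n, 1 ≤ n → ∀ a b : Fin n → ℤ, System a b → ∀ w : Fin n → Bool, ∀ Q r : ℕ, 0 < Q →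
          Nat.Coprime r Q → ManyPrimes fun p => p ≡ r [MOD Q] ∧
            ∀ j, h (a j * p + b j).natAbs = if w j = true then 1 else -1) := by
  classical
  have hne : ∀ p : (ℕ → Bool) → Prop, (∀ᵐ ω ∂cm, p ω) → ∃ ω, p ω := fun p h => h.exists
  refine ⟨fun P n hn F hsep hcop h0 hP g hg => polynomials P hn F hsep hcop h0 hP g hg,
    fun P hP n hn a b hab g hg => forms P hP hn a b hab g hg, fun P => ⟨fun hP n hn g hg => ?_,
    fun h => ?_⟩, fun P hP => finite_set P (Set.not_infinite.1 hP),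
    fun P hP => ⟨liouville P hP, ?_⟩⟩
  · have h1 := forms P hP hn (fun _ => 1) (fun j => ((j : ℕ) + 1 : ℕ)) ⟨fun j => ⟨one_ne_zero, by
      show (((j : ℕ) + 1 : ℕ) : ℤ) ≠ 0
      exact Int.natCast_ne_zero.2 (Nat.succ_ne_zero (j : ℕ))⟩, fun i j hij h => hij (Fin.ext (by
        simp only [one_mul] at h
        have h' : (j : ℕ) + 1 = (i : ℕ) + 1 := by exact_mod_cast h
        omega))⟩ (fun j p => g (p + j + 1)) (fun j p => hg _)
    filter_upwards [h1] with ω hω w
    obtain ⟨p, hp, _, hp2⟩ := exists_of_many (hω w 1 1 one_pos (Nat.coprime_one_right 1))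
    refine ⟨p, hp, fun j => ?_⟩
    have h2 := hp2 j
    have h3 : ((1 : ℤ) * (p : ℤ) + (((j : ℕ) + 1 : ℕ) : ℤ)).natAbs = p + j + 1 := by
      rw [one_mul]
      have : (p : ℤ) + (((j : ℕ) + 1 : ℕ) : ℤ) = ((p + j + 1 : ℕ) : ℤ) := by
        push_cast
        ring
      rw [this, Int.natAbs_natCast]
    rw [h3] at h2
    exact h2
  · by_contra hP
    obtain ⟨n, hn, h1⟩ := finite_set P (Set.not_infinite.1 hP)
    obtain ⟨ω, hω⟩ := hne _ (h n hn (fun _ => 1) fun _ => Or.inl rfl)
    obtain ⟨p, _, hp⟩ := hω fun _ => false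
    refine h1 ω p fun j => ?_
    have h2 := hp j
    simpa only [one_mul, Bool.false_eq_true, if_false] using h2
  · obtain ⟨ω, hω⟩ := hne _ (liouville P hP)
    have hcc : ∀ q, |if q ∈ P then (if ω q = true then 1 else -1) else (-1 : ℝ)| = 1 := by
      intro q
      split_ifs <;> simp
    have he : change P (-1) ω =
        mult (fun q => if q ∈ P then (if ω q = true then 1 else -1) else (-1 : ℝ)) := by
      funext n
      unfold change mult
      refine Finset.prod_congr rfl fun q _ => ?_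
      congr
    refine ⟨change P (-1) ω, fun n => ?_, fun m n hm hn => ?_, fun q hq hqP => ?_, hω⟩
    · rw [he]
      exact (abs_eq zero_le_one).1 (abs_mult _ hcc n)
    · rw [he]
      exact mult_mul _ (by omega) (by omega)
    · unfold change
      rw [hq.primeFactors, Finset.prod_singleton, hq.factorization_self, pow_one]
      exact if_neg hqP

end Pool.Agent.Results.MP_e6fa8b_nt.PatternsAtPrimes
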